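import Pool.Agent.Lib.MP_159703_lc.Smoothed
import Pool.Agent.Lib.MP_159703_lc.Termination

/-!
# The Lemke-Howson algorithm does not have polynomial smoothed complexity

The definitions are in `Pool.Agent.Lib.MP_159703_lc.Defs`. The proof is unconditional: for every
`m ≥ 1` there is a positively normalized game of size `n = 6 (m + 1)` such that for every game
whose payoffs differ from it by at most `1 / (2304 (m + 1))`, and for every missing label, the
Lemke-Howson algorithm makes at least `2 ^ m` pivots before it finds a Nash equilibrium
(`Pool.Agent.LH.robust`).
-/

namespace Pool.Agent.Results.MP_159703_lc.LemkeHowson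

open Pool.Agent.LH

/-- The Lemke-Howson algorithm does not have polynomial smoothed complexity, neither under uniform
nor under Gaussian perturbations. The running time is the number of pivots; it is even counted for
the best choice `k` of the missing label for each perturbed game. The third part is the classical
theorem of Lemke and Howson; it is included to show that the running time is what it should be. -/
theorem result :
    ¬ PolynomialSmoothedComplexity uniformNoise (fun _ A B => ⨅ k, pivots A B k) ∧
    ¬ PolynomialSmoothedComplexity gaussianNoise (fun _ A B => ⨅ k, pivots A B k) ∧
    (∀ (n : ℕ) (A B : Fin n → Fin n → ℝ), Nondegenerate A B → ∀ k, pivots A B k < ⊤) :=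
  ⟨not_polynomial_uniform, not_polynomial_gaussian, fun _ _ _ h k => pivots_lt_top h k⟩

end Pool.Agent.Results.MP_159703_lc.LemkeHowson
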